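import Mathlib

namespace Pool.Agent.Results.MP_a338c1_co.RookBounds

/-- the cells (a,b,c) of the triangular board with n rows: a + b + c = n - 1 -/
def IsCell (n : ℕ) (p : ℕ × ℕ × ℕ) : Prop := p.1 + p.2.1 + p.2.2 + 1 = n

/-- S is a set of rooks on the board with n rows covering every cell -/
def Covering (n : ℕ) (S : Finset (ℕ × ℕ × ℕ)) : Prop :=
  (∀ p ∈ S, IsCell n p) ∧
    ∀ q, IsCell n q → ∃ p ∈ S, p.1 = q.1 ∨ p.2.1 = q.2.1 ∨ p.2.2 = q.2.2

/-- the rook domination number of the triangular board with n rows -/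
noncomputable def gam (n : ℕ) : ℕ := sInf {k | ∃ S, Covering n S ∧ S.card = k}

/-! ## Lower bound -/

lemma cnt {S : Finset (ℕ × ℕ × ℕ)} (f : ℕ × ℕ × ℕ → ℕ) (P : Finset ℕ) (Q : ℕ → Prop)
    [DecidablePred Q] (h : ∀ v ∈ P, Q v ∧ v ∈ S.image f) :
    P.card ≤ (S.filter (fun p => Q (f p))).card := by
  have h1 : P ⊆ (S.filter (fun p => Q (f p))).image f := by
    intro v hv
    obtain ⟨h2, h3⟩ := h v hv
    rw [Finset.mem_image] at h3 ⊢
    obtain ⟨p, hp, rfl⟩ := h3
    exact ⟨p, Finset.mem_filter.mpr ⟨hp, h2⟩, rfl⟩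
  exact (Finset.card_le_card h1).trans Finset.card_image_le

lemma pairs {A B : Finset ℕ} {x y D : ℕ} (h : ∀ t ≤ D, x + t ∈ A ∨ y + (D - t) ∈ B) :
    D + 1 ≤ ((Finset.Icc x (x + D)).filter (· ∈ A)).card +
      ((Finset.Icc y (y + D)).filter (· ∈ B)).card := by
  have h1 : Finset.range (D + 1) ⊆ (Finset.range (D + 1)).filter (fun t => x + t ∈ A) ∪
      (Finset.range (D + 1)).filter (fun t => y + (D - t) ∈ B) := by
    intro t ht
    rw [Finset.mem_union, Finset.mem_filter, Finset.mem_filter]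
    rcases h t (by rw [Finset.mem_range] at ht; omega) with h2 | h2
    · exact Or.inl ⟨ht, h2⟩
    · exact Or.inr ⟨ht, h2⟩
  have h2 := (Finset.card_le_card h1).trans (Finset.card_union_le _ _)
  rw [Finset.card_range] at h2
  have h3 : ((Finset.range (D + 1)).filter (fun t => x + t ∈ A)).card ≤
      ((Finset.Icc x (x + D)).filter (· ∈ A)).card := by
    apply Finset.card_le_card_of_injOn (fun t => x + t)
    · intro t ht
      rw [Finset.mem_coe, Finset.mem_filter, Finset.mem_range] at ht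
      rw [Finset.mem_coe, Finset.mem_filter, Finset.mem_Icc]
      refine ⟨⟨?_, ?_⟩, ht.2⟩
      · change x ≤ x + t; omega
      · change x + t ≤ x + D; omega
    · intro a _ b _ hab
      simpa using hab
  have h4 : ((Finset.range (D + 1)).filter (fun t => y + (D - t) ∈ B)).card ≤
      ((Finset.Icc y (y + D)).filter (· ∈ B)).card := by
    apply Finset.card_le_card_of_injOn (fun t => y + (D - t))
    · intro t ht
      rw [Finset.mem_coe, Finset.mem_filter, Finset.mem_range] at ht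
      rw [Finset.mem_coe, Finset.mem_filter, Finset.mem_Icc]
      refine ⟨⟨?_, ?_⟩, ht.2⟩
      · change y ≤ y + (D - t); omega
      · change y + (D - t) ≤ y + D; omega
    · intro a ha b hb hab
      rw [Finset.mem_coe, Finset.mem_filter, Finset.mem_range] at ha hb
      simp only at hab
      omega
  omega

lemma sum3 (S : Finset (ℕ × ℕ × ℕ)) (p q r : ℕ × ℕ × ℕ → Prop) [DecidablePred p]
    [DecidablePred q] [DecidablePred r] (c m : ℕ)
    (h : ∀ v ∈ S, c * ((if p v then 1 else 0) + (if q v then 1 else 0) +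
      (if r v then 1 else 0)) ≤ m) :
    c * ((S.filter p).card + (S.filter q).card + (S.filter r).card) ≤ m * S.card := by
  rw [Finset.card_filter, Finset.card_filter, Finset.card_filter, ← Finset.sum_add_distrib,
    ← Finset.sum_add_distrib, Finset.mul_sum]
  calc _ ≤ ∑ v ∈ S, m := Finset.sum_le_sum h
    _ = m * S.card := by rw [Finset.sum_const, smul_eq_mul, mul_comm]

lemma sum6 (S : Finset (ℕ × ℕ × ℕ)) (p q r p' q' r' : ℕ × ℕ × ℕ → Prop) [DecidablePred p]
    [DecidablePred q] [DecidablePred r] [DecidablePred p'] [DecidablePred q'] [DecidablePred r']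
    (m : ℕ)
    (h : ∀ v ∈ S, 3 * ((if p v then 1 else 0) + (if q v then 1 else 0) +
      (if r v then 1 else 0)) + 2 * ((if p' v then 1 else 0) + (if q' v then 1 else 0) +
      (if r' v then 1 else 0)) ≤ m) :
    3 * ((S.filter p).card + (S.filter q).card + (S.filter r).card) +
      2 * ((S.filter p').card + (S.filter q').card + (S.filter r').card) ≤ m * S.card := by
  rw [Finset.card_filter, Finset.card_filter, Finset.card_filter, Finset.card_filter,
    Finset.card_filter, Finset.card_filter, ← Finset.sum_add_distrib,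
    ← Finset.sum_add_distrib, ← Finset.sum_add_distrib,
    ← Finset.sum_add_distrib, Finset.mul_sum, Finset.mul_sum, ← Finset.sum_add_distrib]
  calc _ ≤ ∑ v ∈ S, m := Finset.sum_le_sum h
    _ = m * S.card := by rw [Finset.sum_const, smul_eq_mul, mul_comm]

lemma lower_cover {n : ℕ} {S : Finset (ℕ × ℕ × ℕ)} (hS : Covering n S) :
    3 * n ≤ 7 * S.card := by
  classical
  obtain ⟨hcell, hcov⟩ := hS
  set A := S.image (fun p => p.1) with hA
  set B := S.image (fun p => p.2.1) with hB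
  set C := S.image (fun p => p.2.2) with hC
  have full : ∀ P : Finset ℕ, P.card ≤ S.card → (∀ x, x < n → x ∈ P) → 3 * n ≤ 7 * S.card := by
    intro P h1 h2
    have h3 : Finset.range n ⊆ P := by
      intro x hx
      exact h2 x (Finset.mem_range.mp hx)
    have h4 := Finset.card_le_card h3
    rw [Finset.card_range] at h4
    omega
  by_cases fA : ∀ x, x < n → x ∈ A
  · exact full A Finset.card_image_le fA
  by_cases fB : ∀ x, x < n → x ∈ B
  · exact full B Finset.card_image_le fB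
  by_cases fC : ∀ x, x < n → x ∈ C
  · exact full C Finset.card_image_le fC
  push Not at fA fB fC
  have eA : ∃ x, x ∉ A := ⟨fA.choose, fA.choose_spec.2⟩
  have eB : ∃ x, x ∉ B := ⟨fB.choose, fB.choose_spec.2⟩
  have eC : ∃ x, x ∉ C := ⟨fC.choose, fC.choose_spec.2⟩
  obtain ⟨x0, hx0, hx1, hx2⟩ : ∃ x0, x0 < n ∧ x0 ∉ A ∧ ∀ v < x0, v ∈ A :=
    ⟨Nat.find eA, lt_of_le_of_lt (Nat.find_min' eA fA.choose_spec.2) fA.choose_spec.1,
      Nat.find_spec eA, fun v hv => not_not.mp (Nat.find_min eA hv)⟩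
  obtain ⟨y0, hy0, hy1, hy2⟩ : ∃ x0, x0 < n ∧ x0 ∉ B ∧ ∀ v < x0, v ∈ B :=
    ⟨Nat.find eB, lt_of_le_of_lt (Nat.find_min' eB fB.choose_spec.2) fB.choose_spec.1,
      Nat.find_spec eB, fun v hv => not_not.mp (Nat.find_min eB hv)⟩
  obtain ⟨z0, hz0, hz1, hz2⟩ : ∃ x0, x0 < n ∧ x0 ∉ C ∧ ∀ v < x0, v ∈ C :=
    ⟨Nat.find eC, lt_of_le_of_lt (Nat.find_min' eC fC.choose_spec.2) fC.choose_spec.1,
      Nat.find_spec eC, fun v hv => not_not.mp (Nat.find_min eC hv)⟩
  by_cases hT : n ≤ x0 + y0 + z0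
  · -- many small lines, at most two per rook
    obtain ⟨x', y', z', h1, h2, h3, h4⟩ : ∃ x' y' z', x' ≤ x0 ∧ y' ≤ y0 ∧ z' ≤ z0 ∧
        x' + y' + z' = n := by
      by_cases h : n ≤ x0 + y0
      · exact ⟨x0, n - x0, 0, le_rfl, by omega, by omega, by omega⟩
      · exact ⟨x0, y0, n - x0 - y0, le_rfl, le_rfl, by omega, by omega⟩
    have c1 := cnt (S := S) (fun p => p.1) (Finset.range x') (fun v => v < x')
      (fun v hv => ⟨Finset.mem_range.mp hv, hx2 v (by rw [Finset.mem_range] at hv; omega)⟩)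
    have c2 := cnt (S := S) (fun p => p.2.1) (Finset.range y') (fun v => v < y')
      (fun v hv => ⟨Finset.mem_range.mp hv, hy2 v (by rw [Finset.mem_range] at hv; omega)⟩)
    have c3 := cnt (S := S) (fun p => p.2.2) (Finset.range z') (fun v => v < z')
      (fun v hv => ⟨Finset.mem_range.mp hv, hz2 v (by rw [Finset.mem_range] at hv; omega)⟩)
    rw [Finset.card_range] at c1 c2 c3
    have c4 := sum3 S (fun p => p.1 < x') (fun p => p.2.1 < y') (fun p => p.2.2 < z') 1 2
      (by
        intro v hv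
        have := hcell v hv
        unfold IsCell at this
        split_ifs <;> omega)
    omega
  · have hT' : x0 + y0 + z0 + 1 ≤ n := by omega
    obtain ⟨D, hD⟩ : ∃ D, x0 + y0 + z0 + D + 1 = n := ⟨n - 1 - (x0 + y0 + z0), by omega⟩
    have pAB := pairs (A := A) (B := B) (x := x0) (y := y0) (D := D) (by
      intro t ht
      obtain ⟨p, hp, h⟩ := hcov (x0 + t, y0 + (D - t), z0) (by unfold IsCell; simp only; omega)
      simp only at h
      rcases h with h | h | h
      · left; rw [← h]; exact Finset.mem_image_of_mem _ hp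
      · right; rw [← h]; exact Finset.mem_image_of_mem (fun p : ℕ × ℕ × ℕ => p.2.1) hp
      · exfalso; apply hz1; rw [← h]
        exact Finset.mem_image_of_mem (fun p : ℕ × ℕ × ℕ => p.2.2) hp)
    have pAC := pairs (A := A) (B := C) (x := x0) (y := z0) (D := D) (by
      intro t ht
      obtain ⟨p, hp, h⟩ := hcov (x0 + t, y0, z0 + (D - t)) (by unfold IsCell; simp only; omega)
      simp only at h
      rcases h with h | h | h
      · left; rw [← h]; exact Finset.mem_image_of_mem _ hp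
      · exfalso; apply hy1; rw [← h]
        exact Finset.mem_image_of_mem (fun p : ℕ × ℕ × ℕ => p.2.1) hp
      · right; rw [← h]; exact Finset.mem_image_of_mem (fun p : ℕ × ℕ × ℕ => p.2.2) hp)
    have pBC := pairs (A := B) (B := C) (x := y0) (y := z0) (D := D) (by
      intro t ht
      obtain ⟨p, hp, h⟩ := hcov (x0, y0 + t, z0 + (D - t)) (by unfold IsCell; simp only; omega)
      simp only at h
      rcases h with h | h | h
      · exfalso; apply hx1; rw [← h]
        exact Finset.mem_image_of_mem _ hp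
      · left; rw [← h]; exact Finset.mem_image_of_mem (fun p : ℕ × ℕ × ℕ => p.2.1) hp
      · right; rw [← h]; exact Finset.mem_image_of_mem (fun p : ℕ × ℕ × ℕ => p.2.2) hp)
    have c1 := cnt (S := S) (fun p => p.1) (Finset.range x0) (fun v => v < x0)
      (fun v hv => ⟨Finset.mem_range.mp hv, hx2 v (Finset.mem_range.mp hv)⟩)
    have c2 := cnt (S := S) (fun p => p.2.1) (Finset.range y0) (fun v => v < y0)
      (fun v hv => ⟨Finset.mem_range.mp hv, hy2 v (Finset.mem_range.mp hv)⟩)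
    have c3 := cnt (S := S) (fun p => p.2.2) (Finset.range z0) (fun v => v < z0)
      (fun v hv => ⟨Finset.mem_range.mp hv, hz2 v (Finset.mem_range.mp hv)⟩)
    rw [Finset.card_range] at c1 c2 c3
    have d1 := cnt (S := S) (fun p => p.1) ((Finset.Icc x0 (x0 + D)).filter (· ∈ A))
      (fun v => x0 ≤ v ∧ v ≤ x0 + D)
      (fun v hv => by rw [Finset.mem_filter, Finset.mem_Icc] at hv; exact hv)
    have d2 := cnt (S := S) (fun p => p.2.1) ((Finset.Icc y0 (y0 + D)).filter (· ∈ B))
      (fun v => y0 ≤ v ∧ v ≤ y0 + D)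
      (fun v hv => by rw [Finset.mem_filter, Finset.mem_Icc] at hv; exact hv)
    have d3 := cnt (S := S) (fun p => p.2.2) ((Finset.Icc z0 (z0 + D)).filter (· ∈ C))
      (fun v => z0 ≤ v ∧ v ≤ z0 + D)
      (fun v hv => by rw [Finset.mem_filter, Finset.mem_Icc] at hv; exact hv)
    have c4 := sum6 S (fun p => p.1 < x0) (fun p => p.2.1 < y0) (fun p => p.2.2 < z0)
      (fun p => x0 ≤ p.1 ∧ p.1 ≤ x0 + D) (fun p => y0 ≤ p.2.1 ∧ p.2.1 ≤ y0 + D)
      (fun p => z0 ≤ p.2.2 ∧ p.2.2 ≤ z0 + D) 7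
      (by
        intro v hv
        have := hcell v hv
        unfold IsCell at this
        split_ifs <;> omega)
    omega

/-! ## Upper bounds -/

/-- k rooks suffice -/
def U (n k : ℕ) : Prop := ∃ S, Covering n S ∧ S.card ≤ k

lemma gam_le {n k : ℕ} (h : U n k) : gam n ≤ k := by
  obtain ⟨S, h1, h2⟩ := h
  have h3 : gam n ≤ S.card := Nat.sInf_le ⟨S, h1, rfl⟩
  omega

lemma step_one {n k : ℕ} (h : U n k) : U (n + 1) (k + 1) := by
  obtain ⟨S, ⟨h1, h2⟩, h3⟩ := h
  refine ⟨insert (0, 0, n) (S.image (fun p => (p.1 + 1, p.2.1, p.2.2))), ⟨?_, ?_⟩, ?_⟩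
  · intro p hp
    rw [Finset.mem_insert, Finset.mem_image] at hp
    rcases hp with rfl | ⟨q, hq, rfl⟩
    · unfold IsCell; simp only; omega
    · have := h1 q hq
      unfold IsCell at *
      simp only
      omega
  · rintro ⟨a, b, c⟩ hq
    unfold IsCell at hq
    simp only at hq
    by_cases ha : a = 0
    · exact ⟨(0, 0, n), Finset.mem_insert_self _ _, Or.inl ha.symm⟩
    · obtain ⟨p, hp, h⟩ := h2 (a - 1, b, c) (by unfold IsCell; simp only; omega)
      refine ⟨(p.1 + 1, p.2.1, p.2.2), Finset.mem_insert_of_mem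
        (Finset.mem_image_of_mem _ hp), ?_⟩
      simp only at h ⊢
      omega
  · calc _ ≤ (S.image (fun p => (p.1 + 1, p.2.1, p.2.2))).card + 1 := Finset.card_insert_le _ _
      _ ≤ S.card + 1 := Nat.add_le_add_right Finset.card_image_le 1
      _ ≤ k + 1 := by omega

lemma step_two {n k : ℕ} (h : U n k) : U (n + 2) (k + 1) := by
  obtain ⟨S, ⟨h1, h2⟩, h3⟩ := h
  refine ⟨insert (0, 0, n + 1) (S.image (fun p => (p.1 + 1, p.2.1 + 1, p.2.2))), ⟨?_, ?_⟩, ?_⟩
  · intro p hp
    rw [Finset.mem_insert, Finset.mem_image] at hp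
    rcases hp with rfl | ⟨q, hq, rfl⟩
    · unfold IsCell; simp only; omega
    · have := h1 q hq
      unfold IsCell at *
      simp only
      omega
  · rintro ⟨a, b, c⟩ hq
    unfold IsCell at hq
    simp only at hq
    by_cases ha : a = 0
    · exact ⟨(0, 0, n + 1), Finset.mem_insert_self _ _, Or.inl ha.symm⟩
    · by_cases hb : b = 0
      · exact ⟨(0, 0, n + 1), Finset.mem_insert_self _ _, Or.inr (Or.inl hb.symm)⟩
      · obtain ⟨p, hp, h⟩ := h2 (a - 1, b - 1, c) (by unfold IsCell; simp only; omega)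
        refine ⟨(p.1 + 1, p.2.1 + 1, p.2.2), Finset.mem_insert_of_mem
          (Finset.mem_image_of_mem _ hp), ?_⟩
        simp only at h ⊢
        omega
  · calc _ ≤ (S.image (fun p => (p.1 + 1, p.2.1 + 1, p.2.2))).card + 1 := Finset.card_insert_le _ _
      _ ≤ S.card + 1 := Nat.add_le_add_right Finset.card_image_le 1
      _ ≤ k + 1 := by omega

lemma five_card (r1 r2 r3 r4 r5 : ℕ) (f1 f2 f3 f4 f5 : ℕ → ℕ × ℕ × ℕ) :
    ((Finset.range r1).image f1 ∪ ((Finset.range r2).image f2 ∪ ((Finset.range r3).image f3 ∪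
      ((Finset.range r4).image f4 ∪ (Finset.range r5).image f5)))).card ≤
      r1 + (r2 + (r3 + (r4 + r5))) := by
  have h : ∀ (r : ℕ) (f : ℕ → ℕ × ℕ × ℕ), ((Finset.range r).image f).card ≤ r := by
    intro r f
    exact Finset.card_image_le.trans (by rw [Finset.card_range])
  refine (Finset.card_union_le _ _).trans (Nat.add_le_add (h _ _) ?_)
  refine (Finset.card_union_le _ _).trans (Nat.add_le_add (h _ _) ?_)
  refine (Finset.card_union_le _ _).trans (Nat.add_le_add (h _ _) ?_)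
  exact (Finset.card_union_le _ _).trans (Nat.add_le_add (h _ _) (h _ _))

lemma five_cover (n r1 r2 r3 r4 r5 : ℕ) (f1 f2 f3 f4 f5 : ℕ → ℕ × ℕ × ℕ)
    (c1 : ∀ j < r1, IsCell n (f1 j)) (c2 : ∀ j < r2, IsCell n (f2 j))
    (c3 : ∀ j < r3, IsCell n (f3 j)) (c4 : ∀ j < r4, IsCell n (f4 j))
    (c5 : ∀ j < r5, IsCell n (f5 j))
    (hc : ∀ a b c : ℕ, a + b + c + 1 = n →
      (∃ j < r1, (f1 j).1 = a ∨ (f1 j).2.1 = b ∨ (f1 j).2.2 = c) ∨
      (∃ j < r2, (f2 j).1 = a ∨ (f2 j).2.1 = b ∨ (f2 j).2.2 = c) ∨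
      (∃ j < r3, (f3 j).1 = a ∨ (f3 j).2.1 = b ∨ (f3 j).2.2 = c) ∨
      (∃ j < r4, (f4 j).1 = a ∨ (f4 j).2.1 = b ∨ (f4 j).2.2 = c) ∨
      (∃ j < r5, (f5 j).1 = a ∨ (f5 j).2.1 = b ∨ (f5 j).2.2 = c)) :
    U n (r1 + (r2 + (r3 + (r4 + r5)))) := by
  refine ⟨_, ⟨?_, ?_⟩, five_card r1 r2 r3 r4 r5 f1 f2 f3 f4 f5⟩
  · intro p hp
    simp only [Finset.mem_union, Finset.mem_image, Finset.mem_range] at hp
    rcases hp with ⟨j, hj, rfl⟩ | ⟨j, hj, rfl⟩ | ⟨j, hj, rfl⟩ | ⟨j, hj, rfl⟩ | ⟨j, hj, rfl⟩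
    · exact c1 j hj
    · exact c2 j hj
    · exact c3 j hj
    · exact c4 j hj
    · exact c5 j hj
  · rintro ⟨a, b, c⟩ hq
    unfold IsCell at hq
    simp only at hq
    simp only [Finset.mem_union, Finset.mem_image, Finset.mem_range]
    rcases hc a b c hq with ⟨j, hj, h⟩ | ⟨j, hj, h⟩ | ⟨j, hj, h⟩ | ⟨j, hj, h⟩ | ⟨j, hj, h⟩
    · exact ⟨f1 j, Or.inl ⟨j, hj, rfl⟩, h⟩
    · exact ⟨f2 j, Or.inr (Or.inl ⟨j, hj, rfl⟩), h⟩
    · exact ⟨f3 j, Or.inr (Or.inr (Or.inl ⟨j, hj, rfl⟩)), h⟩
    · exact ⟨f4 j, Or.inr (Or.inr (Or.inr (Or.inl ⟨j, hj, rfl⟩))), h⟩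
    · exact ⟨f5 j, Or.inr (Or.inr (Or.inr (Or.inr ⟨j, hj, rfl⟩))), h⟩

lemma family_odd (u : ℕ) : U (24 * u + 7) (11 * u + 3) := by
  have key := five_cover (24 * u + 7) (4 * u + 2) (4 * u + 1) u u u
    (fun j => (4 * j, 2 * (4 * u + 1) - 2 * j, 4 * (4 * u + 1) - 2 * j))
    (fun j => (4 * j + 2, 4 * (4 * u + 1) - 2 * j, 2 * (4 * u + 1) - 2 - 2 * j))
    (fun j => (2 * j + 1, 2 * j + 1, 24 * u + 6 - (4 * j + 2)))
    (fun j => (2 * u + 2 * j + 1, 24 * u + 6 - (2 * u + 4 * j + 2), 2 * j + 1))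
    (fun j => (24 * u + 6 - (4 * u + 4 * j + 2), 2 * u + 2 * j + 1, 2 * u + 2 * j + 1))
    (by intro j hj; unfold IsCell; simp only; omega)
    (by intro j hj; unfold IsCell; simp only; omega)
    (by intro j hj; unfold IsCell; simp only; omega)
    (by intro j hj; unfold IsCell; simp only; omega)
    (by intro j hj; unfold IsCell; simp only; omega)
    (by
      intro a b c habc
      by_cases a0 : a % 2 = 0 ∧ a ≤ 4 * (4 * u + 1)
      · by_cases a1 : a % 4 = 0
        · exact Or.inl ⟨a / 4, by omega, Or.inl (by simp only; omega)⟩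
        · exact Or.inr (Or.inl ⟨a / 4, by omega, Or.inl (by simp only; omega)⟩)
      by_cases b0 : b % 2 = 0 ∧ b ≤ 4 * (4 * u + 1)
      · by_cases b1 : b ≤ 2 * (4 * u + 1)
        · exact Or.inl ⟨(4 * u + 1) - b / 2, by omega, Or.inr (Or.inl (by simp only; omega))⟩
        · exact Or.inr (Or.inl ⟨2 * (4 * u + 1) - b / 2, by omega,
            Or.inr (Or.inl (by simp only; omega))⟩)
      by_cases c0 : c % 2 = 0 ∧ c ≤ 4 * (4 * u + 1)
      · by_cases c1 : 2 * (4 * u + 1) ≤ c
        · exact Or.inl ⟨2 * (4 * u + 1) - c / 2, by omega,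
            Or.inr (Or.inr (by simp only; omega))⟩
        · exact Or.inr (Or.inl ⟨4 * u - c / 2, by omega,
            Or.inr (Or.inr (by simp only; omega))⟩)
      by_cases a2 : a % 2 = 1 ∧ a < 4 * u + 1
      · by_cases a3 : a / 2 < u
        · exact Or.inr (Or.inr (Or.inl ⟨a / 2, by omega, Or.inl (by simp only; omega)⟩))
        · exact Or.inr (Or.inr (Or.inr (Or.inl ⟨a / 2 - u, by omega,
            Or.inl (by simp only; omega)⟩)))
      by_cases b2 : b % 2 = 1 ∧ b < 4 * u + 1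
      · by_cases b3 : b / 2 < u
        · exact Or.inr (Or.inr (Or.inl ⟨b / 2, by omega, Or.inr (Or.inl (by simp only; omega))⟩))
        · exact Or.inr (Or.inr (Or.inr (Or.inr ⟨b / 2 - u, by omega,
            Or.inr (Or.inl (by simp only; omega))⟩)))
      by_cases c2 : c % 2 = 1 ∧ c < 4 * u + 1
      · by_cases c3 : c / 2 < u
        · exact Or.inr (Or.inr (Or.inr (Or.inl ⟨c / 2, by omega,
            Or.inr (Or.inr (by simp only; omega))⟩)))
        · exact Or.inr (Or.inr (Or.inr (Or.inr ⟨c / 2 - u, by omega,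
            Or.inr (Or.inr (by simp only; omega))⟩)))
      exfalso
      omega)
  have e : 4 * u + 2 + (4 * u + 1 + (u + (u + u))) = 11 * u + 3 := by ring
  rw [e] at key
  exact key

lemma family_even (u : ℕ) : U (24 * u + 20) (11 * u + 9) := by
  have key := five_cover (24 * u + 20) (4 * u + 4) (4 * u + 3) u (u + 1) (u + 1)
    (fun j => (4 * j, 2 * (4 * u + 3) - 2 * j, 4 * (4 * u + 3) + 1 - 2 * j))
    (fun j => (4 * j + 2, 4 * (4 * u + 3) - 2 * j, 2 * (4 * u + 3) - 1 - 2 * j))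
    (fun j => (2 * j + 1, 2 * j + 1, 24 * u + 19 - (4 * j + 2)))
    (fun j => (2 * u + 2 * j + 1, 24 * u + 19 - (2 * u + 4 * j + 1), 2 * j))
    (fun j => (24 * u + 19 - (4 * u + 4 * j + 3), 2 * u + 2 * j + 1, 2 * u + 2 * j + 2))
    (by intro j hj; unfold IsCell; simp only; omega)
    (by intro j hj; unfold IsCell; simp only; omega)
    (by intro j hj; unfold IsCell; simp only; omega)
    (by intro j hj; unfold IsCell; simp only; omega)
    (by intro j hj; unfold IsCell; simp only; omega)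
    (by
      intro a b c habc
      by_cases a0 : a % 2 = 0 ∧ a ≤ 4 * (4 * u + 3)
      · by_cases a1 : a % 4 = 0
        · exact Or.inl ⟨a / 4, by omega, Or.inl (by simp only; omega)⟩
        · exact Or.inr (Or.inl ⟨a / 4, by omega, Or.inl (by simp only; omega)⟩)
      by_cases b0 : b % 2 = 0 ∧ b ≤ 4 * (4 * u + 3)
      · by_cases b1 : b ≤ 2 * (4 * u + 3)
        · exact Or.inl ⟨(4 * u + 3) - b / 2, by omega, Or.inr (Or.inl (by simp only; omega))⟩
        · exact Or.inr (Or.inl ⟨2 * (4 * u + 3) - b / 2, by omega,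
            Or.inr (Or.inl (by simp only; omega))⟩)
      by_cases c0 : c % 2 = 1 ∧ c ≤ 4 * (4 * u + 3) + 1
      · by_cases c1 : 2 * (4 * u + 3) ≤ c
        · exact Or.inl ⟨2 * (4 * u + 3) - c / 2, by omega,
            Or.inr (Or.inr (by simp only; omega))⟩
        · exact Or.inr (Or.inl ⟨4 * u + 2 - c / 2, by omega,
            Or.inr (Or.inr (by simp only; omega))⟩)
      by_cases a2 : a % 2 = 1 ∧ a < 4 * u + 3
      · by_cases a3 : a / 2 < u
        · exact Or.inr (Or.inr (Or.inl ⟨a / 2, by omega, Or.inl (by simp only; omega)⟩))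
        · exact Or.inr (Or.inr (Or.inr (Or.inl ⟨a / 2 - u, by omega,
            Or.inl (by simp only; omega)⟩)))
      by_cases b2 : b % 2 = 1 ∧ b < 4 * u + 3
      · by_cases b3 : b / 2 < u
        · exact Or.inr (Or.inr (Or.inl ⟨b / 2, by omega, Or.inr (Or.inl (by simp only; omega))⟩))
        · exact Or.inr (Or.inr (Or.inr (Or.inr ⟨b / 2 - u, by omega,
            Or.inr (Or.inl (by simp only; omega))⟩)))
      by_cases c2 : c % 2 = 0 ∧ c < 4 * u + 4
      · by_cases c3 : c / 2 ≤ u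
        · exact Or.inr (Or.inr (Or.inr (Or.inl ⟨c / 2, by omega,
            Or.inr (Or.inr (by simp only; omega))⟩)))
        · exact Or.inr (Or.inr (Or.inr (Or.inr ⟨c / 2 - u - 1, by omega,
            Or.inr (Or.inr (by simp only; omega))⟩)))
      exfalso
      omega)
  have e : 4 * u + 4 + (4 * u + 3 + (u + (u + 1 + (u + 1)))) = 11 * u + 9 := by ring
  rw [e] at key
  exact key

lemma ext_odd (u : ℕ) : ∀ j, U (24 * u + 7 + j) (11 * u + 3 + (j + 1) / 2) := by
  intro j
  induction j using Nat.strong_induction_on with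
  | _ j ih =>
    rcases j with _ | _ | j
    · simpa using family_odd u
    · exact step_one (family_odd u)
    · have h := step_two (ih j (by omega))
      have e : 11 * u + 3 + (j + 1) / 2 + 1 = 11 * u + 3 + (j + 1 + 1 + 1) / 2 := by omega
      rw [e] at h
      exact h

lemma ext_even (u : ℕ) : ∀ j, U (24 * u + 20 + 2 * j) (11 * u + 9 + j) := by
  intro j
  induction j with
  | zero => simpa using family_even u
  | succ j ih => exact step_two ih

lemma upper (n : ℕ) (hn : 7 ≤ n) : gam n + (n - 7) / 24 ≤ n / 2 := by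
  have h := gam_le (ext_odd ((n - 7) / 24) ((n - 7) % 24))
  have e : 24 * ((n - 7) / 24) + 7 + (n - 7) % 24 = n := by omega
  rw [e] at h
  omega

lemma upper_even (n : ℕ) (hn : 7 ≤ n) (h2 : n % 2 = 0) : gam n + (n + 4) / 24 ≤ n / 2 := by
  by_cases h20 : n < 20
  · have := upper n hn
    omega
  · have h := gam_le (ext_even ((n - 20) / 24) ((n - 20) % 24 / 2))
    have e : 24 * ((n - 20) / 24) + 20 + 2 * ((n - 20) % 24 / 2) = n := by omega
    rw [e] at h
    omega

lemma exists_cover (n : ℕ) : U n n := by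
  induction n with
  | zero =>
    refine ⟨∅, ⟨?_, ?_⟩, by simp⟩
    · intro p hp
      simp at hp
    · intro q hq
      unfold IsCell at hq
      omega
  | succ n ih => exact step_one ih

lemma lower (n : ℕ) : 3 * n ≤ 7 * gam n := by
  have hne : {k | ∃ S, Covering n S ∧ S.card = k}.Nonempty := by
    obtain ⟨S, h1, _⟩ := exists_cover n
    exact ⟨S.card, S, h1, rfl⟩
  obtain ⟨S, h1, h2⟩ := Nat.sInf_mem hne
  have h3 := lower_cover h1
  rw [h2] at h3
  exact h3

/-- Bounds 3n/7 ≤ gamma(n) ≤ floor(n/2) - (about n/24) for the rook domination number of the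
triangular board, exact values, and the failure of gamma(n) = floor(n/2). -/
theorem result :
    (∀ n, 3 * n ≤ 7 * gam n) ∧
    (∀ n, 7 ≤ n → gam n + (n - 7) / 24 ≤ n / 2) ∧
    (∀ n, 7 ≤ n → n % 2 = 0 → gam n + (n + 4) / 24 ≤ n / 2) ∧
    (gam 13 = 6 ∧ gam 15 = 7 ∧ gam 17 = 8 ∧ gam 19 = 9 ∧ gam 20 = 9 ∧ gam 22 = 10 ∧
      gam 24 = 11 ∧ gam 26 = 12 ∧ gam 31 = 14 ∧ gam 33 = 15) ∧
    (∀ n, 30 ≤ n → gam n < n / 2) ∧
    ¬ ∀ n, 6 ≤ n → gam n = n / 2 := by
  refine ⟨lower, upper, upper_even, ?_, ?_, ?_⟩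
  · have l13 := lower 13
    have l15 := lower 15
    have l17 := lower 17
    have l19 := lower 19
    have l20 := lower 20
    have l22 := lower 22
    have l24 := lower 24
    have l26 := lower 26
    have l31 := lower 31
    have l33 := lower 33
    have u13 := upper 13 (by norm_num)
    have u15 := upper 15 (by norm_num)
    have u17 := upper 17 (by norm_num)
    have u19 := upper 19 (by norm_num)
    have u20 := upper_even 20 (by norm_num) (by norm_num)
    have u22 := upper_even 22 (by norm_num) (by norm_num)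
    have u24 := upper_even 24 (by norm_num) (by norm_num)
    have u26 := upper_even 26 (by norm_num) (by norm_num)
    have u31 := upper 31 (by norm_num)
    have u33 := upper 33 (by norm_num)
    refine ⟨?_, ?_, ?_, ?_, ?_, ?_, ?_, ?_, ?_, ?_⟩ <;> omega
  · intro n hn
    by_cases h2 : n % 2 = 0
    · have := upper_even n (by omega) h2
      omega
    · have := upper n (by omega)
      omega
  · intro h
    have h1 := h 20 (by norm_num)
    have h2 := upper_even 20 (by norm_num) (by norm_num)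
    omega

end Pool.Agent.Results.MP_a338c1_co.RookBounds
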